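import Pool.Agent.Q296.IB.Ideal

/-!
# Complex places: the ideal boundary of a nodal domain of a form violating the Ramanujan conjecture

Let `v` be a complex place of a number field `K`, `φ` a cusp form on `PGL_2(𝔸_K)` which is spherical at `v`
(real or imaginary part), `g` any point. The slice `f (w, y) = φ (g n(w) a(y))` is a bounded smooth function on
hyperbolic 3-space `H³ = ℂ × (0, ∞)` with `-(y² (f_aa + f_bb + f_yy) - y f_y) = μ f`, and `φ` is tempered at `v`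
iff `μ ≥ 1`. Otherwise `μ = s (2 - s)` with `1 < s < 2`.

We prove, for every real `C²` solution `f` on `H³` with `μ = s (2 - s)`, `s > 1` (no group, no integrability), and
every nodal domain `D` on which `|f| ≤ M`:

* a covering inequality for `|f p₀|`, `p₀ ∈ D`, in terms of the hemispheres over discs which cover the ideal boundary
  `∂D ∩ ℂ` of `D`;
* the ideal boundary of `D` has positive `s`-dimensional Hausdorff measure, and is not a countable union of sets of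
  finite `t`-dimensional measure, for any `t < s`;
* removability of sets of `s`-dimensional measure zero;
* hence: if the ideal boundary of one nodal domain of one slice is `σ`-finite for the `d`-dimensional Hausdorff
  measure, `d ≥ 1`, then `μ ≥ d (2 - d)`; for `d = 1` (countable unions of rectifiable curves) `φ` is tempered at `v`.
-/

set_option autoImplicit false
set_option maxSynthPendingDepth 3

open MeasureTheory Set Filter Topology
open scoped ENNReal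

namespace Pool.Agent.Results.MP_8410ab_nt.ComplexPlacesIdealBoundary

open Pool.Agent.Q296.IB

/-- The nodal domain of `f` in `H³ = ℂ × (0, ∞)` through `p₀`: the connected component of `{f ≠ 0}` containing
`p₀`. -/
def nodalDomain (f : ℂ × ℝ → ℝ) (p₀ : ℂ × ℝ) : Set (ℂ × ℝ) :=
  connectedComponentIn {p : ℂ × ℝ | 0 < p.2 ∧ f p ≠ 0} p₀

/-- The ideal boundary, in the plane `ℂ`, of a subset of `H³`: the points of the plane which are limits of points
of the set. -/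
def idealBoundary (D : Set (ℂ × ℝ)) : Set ℂ := {w : ℂ | (w, (0 : ℝ)) ∈ closure D}

/-- `cosh` of the hyperbolic distance from `p` to the hyperbolic plane (hemisphere) over the circle with centre `ξ`
and radius `r`. -/
noncomputable def coshDist (ξ : ℂ) (r : ℝ) (p : ℂ × ℝ) : ℝ :=
  √(1 + ((‖p.1 - ξ‖ ^ 2 + p.2 ^ 2 - r ^ 2) / (2 * r * p.2)) ^ 2)

/-- `f` is `C²` on `H³` and an eigenfunction of the hyperbolic Laplacian:
`-(y² (f_aa + f_bb + f_yy) - y f_y) = μ f` in the coordinates `(a + b i, y)`. -/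
def IsEigenfunction (f : ℂ × ℝ → ℝ) (μ : ℝ) : Prop :=
  ContDiffOn ℝ 2 f {p : ℂ × ℝ | 0 < p.2} ∧
  ∀ p : ℂ × ℝ, 0 < p.2 →
    -(p.2 ^ 2 * (iteratedDeriv 2 (fun t : ℝ => f (p.1 + t, p.2)) 0
        + iteratedDeriv 2 (fun t : ℝ => f (p.1 + t * Complex.I, p.2)) 0
        + iteratedDeriv 2 (fun t : ℝ => f (p.1, p.2 + t)) 0)
      - p.2 * deriv (fun t : ℝ => f (p.1, p.2 + t)) 0) = μ * f p

lemma line_d {f : ℂ × ℝ → ℝ} {p v : ℂ × ℝ} (hf : ContDiffAt ℝ 2 f p) :
    deriv (fun t : ℝ => f (p + t • v)) 0 = dd v f p ∧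
    iteratedDeriv 2 (fun t : ℝ => f (p + t • v)) 0 = dd v (dd v f) p := by
  set γ : ℝ → ℂ × ℝ := fun t => p + t • v with hγ
  have hγ0 : γ 0 = p := by simp [hγ]
  have hγc : Continuous γ := by fun_prop
  have hγd : ∀ t, HasDerivAt γ v t := by
    intro t
    have h1 : HasDerivAt (fun t : ℝ => t • v) ((1 : ℝ) • v) t := (hasDerivAt_id t).smul_const v
    rw [one_smul] at h1
    exact h1.const_add p
  have hT : Tendsto γ (𝓝 0) (𝓝 p) := by
    have := hγc.tendsto 0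
    rwa [hγ0] at this
  have e1 : deriv (fun t => f (γ t)) =ᶠ[𝓝 0] fun t => dd v f (γ t) := by
    filter_upwards [hT.eventually (ev_diff hf)] with t ht
    exact (ht.hasFDerivAt.comp_hasDerivAt t (hγd t)).deriv
  have hd : DifferentiableAt ℝ (dd v f) p := diff_dd hf
  have e2 : deriv (fun t => dd v f (γ t)) 0 = dd v (dd v f) p := by
    have hd' : HasFDerivAt (dd v f) (fderiv ℝ (dd v f) p) (γ 0) := by
      rw [hγ0]; exact hd.hasFDerivAt
    exact (hd'.comp_hasDerivAt 0 (hγd 0)).deriv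
  refine ⟨?_, ?_⟩
  · have h1 : deriv (fun t => f (γ t)) 0 = dd v f (γ 0) := e1.self_of_nhds
    rw [hγ0] at h1
    exact h1
  · rw [iteratedDeriv_succ, iteratedDeriv_one, e1.deriv_eq, e2]

lemma eig_of {f : ℂ × ℝ → ℝ} {μ : ℝ} (hf : IsEigenfunction f μ) :
    (∀ z ∈ UH, ContDiffAt ℝ 2 f z) ∧ ∀ z ∈ UH, op f z = -μ * f z := by
  have hf' : ∀ z ∈ UH, ContDiffAt ℝ 2 f z := fun z hz => hf.1.contDiffAt (isOpen_UH.mem_nhds hz)
  refine ⟨hf', fun z hz => ?_⟩
  have h := hf.2 z hz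
  have a1 : (fun t : ℝ => f (z.1 + t, z.2)) = fun t : ℝ => f (z + t • e1) := by
    funext t; congr 1; ext <;> simp [e1]
  have a2 : (fun t : ℝ => f (z.1 + t * Complex.I, z.2)) = fun t : ℝ => f (z + t • e2) := by
    funext t; congr 1; ext <;> simp [e2]
  have a3 : (fun t : ℝ => f (z.1, z.2 + t)) = fun t : ℝ => f (z + t • e3) := by
    funext t; congr 1; ext <;> simp [e3]
  rw [a1, a2, a3, (line_d (v := e1) (hf' z hz)).2, (line_d (v := e2) (hf' z hz)).2,
    (line_d (v := e3) (hf' z hz)).2, (line_d (v := e3) (hf' z hz)).1] at h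
  have e : op f z = z.2 ^ 2 * (dd e1 (dd e1 f) z + dd e2 (dd e2 f) z + dd e3 (dd e3 f) z) -
    z.2 * dd e3 f z := rfl
  rw [e]
  linarith

lemma neg_eig {f : ℂ × ℝ → ℝ} {μ : ℝ} (hf : IsEigenfunction f μ) :
    IsEigenfunction (fun w => -f w) μ := by
  refine ⟨hf.1.neg, fun z hz => ?_⟩
  have h := hf.2 z hz
  have a1 : ∀ g : ℝ → ℝ, iteratedDeriv 2 (fun t => -g t) 0 = -iteratedDeriv 2 g 0 := by
    intro g
    simp only [iteratedDeriv_succ, iteratedDeriv_zero, deriv.fun_neg']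
  rw [a1, a1, a1, deriv.fun_neg]
  linarith

lemma nodal_neg (f : ℂ × ℝ → ℝ) (p₀ : ℂ × ℝ) :
    nodalDomain (fun w => -f w) p₀ = nodalDomain f p₀ := by
  unfold nodalDomain
  congr 1
  ext z
  simp

lemma bg_eq (s : ℝ) (ξ : ℂ) (r : ℝ) (p : ℂ × ℝ) : Bg s ξ r p = coshDist ξ r p ^ (-s) := by
  unfold coshDist Bg Sg
  rw [Real.sqrt_eq_rpow, ← Real.rpow_mul (by positivity), Q_eq]
  congr 1
  ring

/-- the conclusions (1), (2) about the nodal domain through `p₀` -/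
def Concl (f : ℂ × ℝ → ℝ) (s : ℝ) (p₀ : ℂ × ℝ) (M : ℝ) : Prop :=
  (∀ (ξ : ℕ → ℂ) (r : ℕ → ℝ), (∀ j, 0 < r j ∧ r j ≤ p₀.2) →
      (∀ w ∈ idealBoundary (nodalDomain f p₀), ∃ j, ‖w - ξ j‖ < r j) →
      ENNReal.ofReal |f p₀| ≤
        ENNReal.ofReal M * ∑' j, ENNReal.ofReal (coshDist (ξ j) (r j) p₀ ^ (-s))) ∧
    0 < Measure.hausdorffMeasure s (idealBoundary (nodalDomain f p₀))

lemma pos_case {f : ℂ × ℝ → ℝ} {s : ℝ} (hs : 1 < s) (hf : IsEigenfunction f (s * (2 - s)))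
    {p₀ : ℂ × ℝ} (hp₀ : 0 < p₀.2) (h0 : 0 < f p₀) {M : ℝ}
    (hM : ∀ z ∈ nodalDomain f p₀, |f z| ≤ M) : Concl f s p₀ M := by
  obtain ⟨h1, h2⟩ := eig_of hf
  have hN := nod_of h1 h2 hp₀ h0
  have hz₀ : p₀ ∈ cmp f p₀ :=
    mem_connectedComponentIn (show p₀ ∈ {z : ℂ × ℝ | 0 < z.2 ∧ f z ≠ 0} from ⟨hp₀, h0.ne'⟩)
  have hM' : ∀ z ∈ cmp f p₀, f z ≤ M := fun z hz => (le_abs_self _).trans (hM z hz)
  refine ⟨fun ξ r hr hcov => ?_, hausdorff_pos hs hN hM' hz₀⟩
  have := cover_ineq hs hN hM' hz₀ (ξ := ξ) (r := r) (fun j => (hr j).1) (fun j => (hr j).2)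
    (fun x hx => hcov x hx)
  rw [abs_of_pos h0]
  simpa only [bg_eq] using this

lemma main {f : ℂ × ℝ → ℝ} {s : ℝ} (hs : 1 < s) (hf : IsEigenfunction f (s * (2 - s)))
    {p₀ : ℂ × ℝ} (hp₀ : 0 < p₀.2) (h0 : f p₀ ≠ 0) {M : ℝ}
    (hM : ∀ z ∈ nodalDomain f p₀, |f z| ≤ M) : Concl f s p₀ M := by
  rcases lt_or_gt_of_ne h0 with h | h
  · have key := pos_case hs (neg_eig hf) hp₀ (M := M) (by simpa using h)
      (by rw [nodal_neg]; intro z hz; rw [abs_neg]; exact hM z hz)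
    unfold Concl at key
    rw [nodal_neg, abs_neg] at key
    exact key
  · exact pos_case hs hf hp₀ h hM

lemma not_sigma {A : Set ℂ} {s t : ℝ} (hA : 0 < Measure.hausdorffMeasure s A) (ht : t < s)
    {B : ℕ → Set ℂ} (hB : A ⊆ ⋃ n, B n) : ∃ n, Measure.hausdorffMeasure t (B n) = ⊤ := by
  by_contra hcon
  push Not at hcon
  have h1 : ∀ n, Measure.hausdorffMeasure s (B n) = 0 := fun n => by
    rcases Measure.hausdorffMeasure_zero_or_top ht (B n) with h | h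
    · exact h
    · exact absurd h (hcon n)
  have h2 : Measure.hausdorffMeasure s A ≤ 0 :=
    (measure_mono hB).trans (le_of_eq (measure_iUnion_null h1))
  exact absurd hA (not_lt.2 h2)

/-- the explicit form of the covering inequality -/
lemma explicit {f : ℂ × ℝ → ℝ} {s : ℝ} (hs : 1 < s) {p₀ : ℂ × ℝ} (hp₀ : 0 < p₀.2) {M : ℝ}
    (h : Concl f s p₀ M) (ξ : ℕ → ℂ) (r : ℕ → ℝ) (hr : ∀ j, 0 < r j ∧ r j ≤ p₀.2 / 2)
    (hcov : ∀ w ∈ idealBoundary (nodalDomain f p₀), ∃ j, ‖w - ξ j‖ < r j) :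
    ENNReal.ofReal |f p₀| ≤ ENNReal.ofReal M * ∑' j, ENNReal.ofReal ((3 * r j / p₀.2) ^ s) := by
  refine (h.1 ξ r (fun j => ⟨(hr j).1, (hr j).2.trans (by linarith)⟩) hcov).trans ?_
  refine mul_le_mul_right (ENNReal.tsum_le_tsum fun j => ENNReal.ofReal_le_ofReal ?_) _
  rw [← bg_eq]
  exact Bg_le (by linarith) hp₀ (hr j).1 (hr j).2

lemma remov {f : ℂ × ℝ → ℝ} {s : ℝ} (hs : 1 < s) (hf : IsEigenfunction f (s * (2 - s)))
    {Ω : Set (ℂ × ℝ)} (hΩ : Ω ⊆ {p | 0 < p.2}) {M : ℝ} (hM : ∀ z ∈ Ω, |f z| ≤ M)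
    (hfr : ∀ z ∈ frontier Ω, 0 < z.2 → f z = 0)
    (hH : Measure.hausdorffMeasure s (idealBoundary Ω) = 0) {z : ℂ × ℝ} (hz : z ∈ Ω) : f z = 0 := by
  by_contra h0
  have hz' : z ∈ nodalDomain f z :=
    mem_connectedComponentIn (show z ∈ {p : ℂ × ℝ | 0 < p.2 ∧ f p ≠ 0} from ⟨hΩ hz, h0⟩)
  have hne : ∀ v ∈ nodalDomain f z, 0 < v.2 ∧ f v ≠ 0 := fun v hv =>
    (connectedComponentIn_subset {p : ℂ × ℝ | 0 < p.2 ∧ f p ≠ 0} z hv)
  have hcov : nodalDomain f z ⊆ interior Ω ∪ (closure Ω)ᶜ := by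
    intro v hv
    by_contra hvn
    rw [mem_union, not_or, mem_compl_iff, not_not] at hvn
    exact (hne v hv).2 (hfr v ⟨hvn.2, hvn.1⟩ (hne v hv).1)
  have hsub : nodalDomain f z ⊆ Ω := by
    rcases IsPreconnected.subset_or_subset isOpen_interior isClosed_closure.isOpen_compl
      (disjoint_compl_right.mono_left (interior_subset.trans subset_closure)) hcov
      isPreconnected_connectedComponentIn with h | h
    · exact h.trans interior_subset
    · exact absurd (subset_closure hz) (h hz')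
  have h1 := (main hs hf (hΩ hz) h0 (M := M) (fun w hw => hM w (hsub hw))).2
  have h2 : idealBoundary (nodalDomain f z) ⊆ idealBoundary Ω := fun x hx =>
    closure_mono hsub hx
  have h3 := measure_mono (μ := Measure.hausdorffMeasure s) h2
  rw [hH] at h3
  exact absurd h1 (not_lt.2 h3)

/-- **Complex places: ideal boundaries of nodal domains of forms violating the Ramanujan conjecture.** -/
theorem result :
    (∀ (f : ℂ × ℝ → ℝ) (s : ℝ), 1 < s → IsEigenfunction f (s * (2 - s)) →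
      ∀ (p₀ : ℂ × ℝ) (M : ℝ), 0 < p₀.2 → f p₀ ≠ 0 → (∀ p ∈ nodalDomain f p₀, |f p| ≤ M) →
      -- (1) the covering inequality, exact and explicit form
      (∀ (ξ : ℕ → ℂ) (r : ℕ → ℝ), (∀ j, 0 < r j ∧ r j ≤ p₀.2) →
        (∀ w ∈ idealBoundary (nodalDomain f p₀), ∃ j, ‖w - ξ j‖ < r j) →
        ENNReal.ofReal |f p₀| ≤
          ENNReal.ofReal M * ∑' j, ENNReal.ofReal (coshDist (ξ j) (r j) p₀ ^ (-s))) ∧
      (∀ (ξ : ℕ → ℂ) (r : ℕ → ℝ), (∀ j, 0 < r j ∧ r j ≤ p₀.2 / 2) →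
        (∀ w ∈ idealBoundary (nodalDomain f p₀), ∃ j, ‖w - ξ j‖ < r j) →
        ENNReal.ofReal |f p₀| ≤
          ENNReal.ofReal M * ∑' j, ENNReal.ofReal ((3 * r j / p₀.2) ^ s)) ∧
      -- (2) positive Hausdorff measure; not σ-finite in smaller dimensions
      0 < Measure.hausdorffMeasure s (idealBoundary (nodalDomain f p₀)) ∧
      (∀ (t : ℝ) (A : ℕ → Set ℂ), t < s → idealBoundary (nodalDomain f p₀) ⊆ ⋃ n, A n →
        ∃ n, Measure.hausdorffMeasure t (A n) = ⊤)) ∧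
    -- (3) removability
    (∀ (f : ℂ × ℝ → ℝ) (s : ℝ), 1 < s → IsEigenfunction f (s * (2 - s)) →
      ∀ (Ω : Set (ℂ × ℝ)) (M : ℝ), Ω ⊆ {p | 0 < p.2} → (∀ p ∈ Ω, |f p| ≤ M) →
        (∀ p ∈ frontier Ω, 0 < p.2 → f p = 0) →
        Measure.hausdorffMeasure s (idealBoundary Ω) = 0 → ∀ p ∈ Ω, f p = 0) ∧
    -- (4) lower bound for the eigenvalue from the size of one ideal boundary; `d = 1` is temperedness
    (∀ (f : ℂ × ℝ → ℝ) (μ : ℝ), IsEigenfunction f μ →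
      ∀ (p₀ : ℂ × ℝ) (M : ℝ), 0 < p₀.2 → f p₀ ≠ 0 → (∀ p ∈ nodalDomain f p₀, |f p| ≤ M) →
      ∀ (d : ℝ) (A : ℕ → Set ℂ), 1 ≤ d → idealBoundary (nodalDomain f p₀) ⊆ ⋃ n, A n →
        (∀ n, Measure.hausdorffMeasure d (A n) < ⊤) → d * (2 - d) ≤ μ) := by
  refine ⟨fun f s hs hf p₀ M hp₀ h0 hM => ?_, ?_, ?_⟩
  · have h := main hs hf hp₀ h0 hM
    exact ⟨h.1, fun ξ r hr hcov => explicit hs hp₀ h ξ r hr hcov, h.2,
      fun t A ht hA => not_sigma h.2 ht hA⟩
  · intro f s hs hf Ω M hΩ hM hfr hH p hp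
    exact remov hs hf hΩ hM hfr hH hp
  · intro f μ hf p₀ M hp₀ h0 hM d A hd hA hfin
    by_contra hcon
    push Not at hcon
    have h1 : 0 ≤ 1 - μ := by nlinarith [sq_nonneg (d - 1)]
    have h2 : d - 1 < √(1 - μ) := by
      apply Real.lt_sqrt_of_sq_lt
      nlinarith
    set s := 1 + √(1 - μ) with hs
    have hs1 : 1 < s := by linarith
    have hμ : μ = s * (2 - s) := by
      have h3 : √(1 - μ) ^ 2 = 1 - μ := Real.sq_sqrt h1
      rw [hs]; nlinarith
    rw [hμ] at hf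
    have h := (main hs1 hf hp₀ h0 hM).2
    obtain ⟨n, hn⟩ := not_sigma h (t := d) (by linarith) hA
    exact absurd hn (hfin n).ne

end Pool.Agent.Results.MP_8410ab_nt.ComplexPlacesIdealBoundary
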