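import Mathlib
import Pool.Agent.Q164.RM.Fin

/-!
# The Ramanujan conjecture for families of cusp forms on `GL(2)`: few forms can violate it at the same places

Let `π_i`, `i ∈ ι`, be `m = |ι|` unitary cuspidal automorphic representations of `GL_2` over a number field `K`,
unramified outside the finite set `S`, none of them dihedral, tetrahedral or octahedral (for these the conjecture is
known), with pairwise inequivalent lifts `Ad π_i` to `GL_3` and `A^4 π_i = Sym^4 π_i ⊗ ω_i^{-2}` to `GL_5`; in
particular no two of them are twists of each other. For one form Kim and Shahidi proved that the places where it is not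
tempered have upper Dirichlet density at most `1 / 35`. Nothing seems to be known on the places where several forms are
nontempered. Here it is shown that the violations of different forms are almost independent:

* *A set of places.* If `P` is a set of places of upper density at least `δ > 0` and all `m` forms are nontempered at
  (almost) all places of `P`, then `m ≤ (1 - δ) / (34 δ)`. So on a given set of places of positive density the Ramanujan
  conjecture for `GL(2)` can fail for finitely many forms only, up to twists; the places where `m` forms are nontempered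
  at the same time have upper density at most `1 / (34 m + 1)`, and for `m ≥ 2` also at most `1 / 100`.
* *A proportion of a set of places.* Let the forms be nontempered, on average over the forms, on the proportion `β` of
  `P`. If `β (1 + 34 δ) > 1`, then `m ≤ (β √(34 δ) - √((1 - β) (1 - 34 β δ)))^(-2)`.
* *The law of large numbers.* If `β > 1 / 10`, then `m ≤ 0.0306 / (δ (β - 1/10)²)`, for every `δ`. In particular the
  places at which more than `(1/10 + ε) m` of the `m` forms are nontempered have upper density at most
  `0.0306 / (ε² m)`: at almost all places nearly nine tenths of the forms are tempered.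

The structures `CuspidalGL2` and `Inequivalent` list what is used; all of it is known: the local components are
unitary; the lifts are cuspidal (Gelbart-Jacquet, Kim, Kim-Shahidi); `|α_{i,v}| ≤ q_v^{7/64}` (Kim-Sarnak,
Blomer-Brumley); the Rankin-Selberg `L`-function of `A^4 π` converges absolutely for `Re s > 1` (Jacquet-Shalika), and
the `L`-functions `L^S(s, Π)`, `L^S(s, Π × Π')` of the lifts are continuous and not zero at `s = 1` for `Π ≠ Π'`, with a
simple pole for `Π = Π'` (Jacquet-Piatetski-Shapiro-Shalika, Shahidi).

The proof. Let `u_i`, `w_i` be the traces of `Ad π_i`, `A^4 π_i` at `v`; they are real, `u_i² = 1 + u_i + w_i`, and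
`u_i ≥ 3`, `w_i ≥ 5` if `π_{i,v}` is not tempered. The functions `1, u_i, w_i` of `v` are orthonormal with respect to
the Dirichlet density; the contribution of the prime powers is bounded since `7/64 < 1/8`. With `h_i = 3 u_i + 5 w_i`,
`H = ∑ h_i`, `D = 1 + 34 m` one has `(1 + H)² ≥ D²` where all forms are nontempered, and the mean of `(1 + H)²` is `D`.
With `N` the number of the nontempered forms, `∑ h_i² + (A/m) H² ≥ (34 + q)² N - q² (1 + 1/A) m` for all `A, q > 0`, and
`N ≤ m/10 + ∑ (15 u_i + 9 w_i) / 100` as `(1 + 3 u_i)² = 10 + 15 u_i + 9 w_i ≥ 100` where `π_i` is nontempered. For two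
forms `(1 + 3 u_1)² (1 + 3 u_2)²` has the mean `100` and is at least `100²` where both are nontempered.
-/

set_option autoImplicit false

namespace Pool.Agent.Results.MP_8410ab_nt.FewSimultaneousViolators

open Filter Topology NumberField IsDedekindDomain
open Pool.Agent.TH861.GL3 Pool.Agent.Q251.GN Pool.Agent.Q164.RM

/-- **Few cusp forms on `GL(2)` violate the Ramanujan conjecture at the same places.** -/
theorem result {K : Type*} [Field K] [NumberField K] {S : Finset (HeightOneSpectrum (𝓞 K))}
    {ι : Type*} [Fintype ι] [Nonempty ι] {α : ι → PL S → Fin 2 → ℂ} (h : ∀ i, CuspidalGL2 (α i))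
    (hne : Pairwise fun i j => Inequivalent (α i) (α j)) (P : Set (PL S)) {δ β : ℝ} (hδ : 0 < δ) (hβ : 0 < β)
    (hβ1 : β ≤ 1) (hV : OftenViolate α P δ β) :
    -- all forms are nontempered on `P`
    (β = 1 → (Fintype.card ι : ℝ) ≤ (1 - δ) / (34 * δ) ∧ (2 ≤ Fintype.card ι → δ ≤ 1 / 100)) ∧
    -- the forms are nontempered on the proportion `β` of `P`, on average
    (1 < β * (1 + 34 * δ) → (Fintype.card ι : ℝ) ≤
      1 / (β * Real.sqrt (34 * δ) - Real.sqrt ((1 - β) * (1 - 34 * β * δ))) ^ 2) ∧
    -- the law of large numbers
    (1 / 10 < β → (Fintype.card ι : ℝ) ≤ 153 / (5000 * δ * (β - 1 / 10) ^ 2)) :=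
  few h hne P hδ hβ hβ1 hV

end Pool.Agent.Results.MP_8410ab_nt.FewSimultaneousViolators
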