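import Pool.Agent.Q286.SA.Mult
import Pool.Agent.Q286.SP.Cond

/-!
# Non-tempered Euler products with analytic continuation and functional equation

The Ramanujan conjecture for `GL_n` says that the Satake parameters of the standard `L`-function of a unitary cuspidal
representation are of absolute value one (and that the archimedean component is tempered).  We show that this does
not follow from the analytic properties of the standard `L`-function: for all `0 ≤ θ, r < 1/2` there are entire Euler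
products with functional equation, all of whose local factors at the primes `≤ Q` are prescribed factors
`(1 - α_p p^{-s})^{-1}` with real `|α_p| ≤ p^θ` (only a mild smallness of `∑ |α_p| p^{-κ}` is assumed), and whose
gamma factor is `Γ(λ (s - r))`.
-/

set_option autoImplicit false

open Complex Finset

namespace Pool.Agent.Results.MP_8410ab_nt.NonTemperedEulerProducts

/-- The completed function `Φ(s) = Q^s ∏_{j < k} Γ(λ_j s + μ_j) F(s)`. -/
noncomputable def Phi (F : ℂ → ℂ) (Q : ℝ) {k : ℕ} (lam : Fin k → ℝ) (mu : Fin k → ℂ) (s : ℂ) : ℂ :=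
  (Q : ℂ) ^ s * (∏ j, Gamma ((lam j : ℂ) * s + mu j)) * F s

/-- The functional equation `Φ(s) = ω conj Φ(1 - conj s)` with `Q > 0`, `λ_j > 0`, `|ω| = 1`, at every `s ≠ 0, 1` at
which no gamma factor of `Φ(s)` or of `Φ(1 - conj s)` has a pole.  No condition on the `μ_j`. -/
def FE (F : ℂ → ℂ) (Q : ℝ) {k : ℕ} (lam : Fin k → ℝ) (mu : Fin k → ℂ) (ω : ℂ) : Prop :=
  0 < Q ∧ (∀ j, 0 < lam j) ∧ ‖ω‖ = 1 ∧
    ∀ s : ℂ, s ≠ 0 → s ≠ 1 →
      (∀ j, ∀ n : ℕ, (lam j : ℂ) * s + mu j ≠ -(n : ℂ)) →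
      (∀ j, ∀ n : ℕ, (lam j : ℂ) * (1 - starRingEnd ℂ s) + mu j ≠ -(n : ℂ)) →
      Phi F Q lam mu s = ω * starRingEnd ℂ (Phi F Q lam mu (1 - starRingEnd ℂ s))

/-- Selberg's axioms, without the Ramanujan hypothesis and without the condition `Re μ_j ≥ 0`, for the entire function
`F`: `a` is the sequence of coefficients of the Dirichlet series and `F` is its continuation. -/
structure Axioms (a : ℕ → ℂ) (F : ℂ → ℂ) : Prop where
  /-- the Dirichlet series converges absolutely for `Re s > 1` -/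
  abs_conv : ∀ s : ℂ, 1 < s.re → LSeriesSummable a s
  /-- `F` is the sum of the Dirichlet series for `Re s > 1` -/
  eq_series : ∀ s : ℂ, 1 < s.re → F s = LSeries a s
  /-- `F` is entire -/
  entire : Differentiable ℂ F
  /-- `F` has finite order -/
  finite_order : ∃ A C : ℝ, 0 < A ∧ ∀ s : ℂ, ‖F s‖ ≤ C * Real.exp (‖s‖ ^ A)
  /-- functional equation -/
  functional : ∃ (Q : ℝ) (k : ℕ) (lam : Fin k → ℝ) (mu : Fin k → ℂ) (ω : ℂ), FE F Q lam mu ω
  /-- real coefficients -/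
  real : ∀ n : ℕ, (a n).im = 0
  /-- Euler product, first part -/
  a_one : a 1 = 1
  /-- Euler product: `log F(s) = ∑ b(n) n^{-s}`, `b` supported on prime powers, `b(n) ≪ n^θ`, `θ < 1/2` -/
  euler : ∃ (b : ℕ → ℂ) (θ : ℝ), θ < 1 / 2 ∧ (∀ n : ℕ, ¬ IsPrimePow n → b n = 0) ∧
    (∃ C : ℝ, ∀ n : ℕ, 1 ≤ n → ‖b n‖ ≤ C * (n : ℝ) ^ θ) ∧
    ∀ s : ℂ, 1 < s.re → LSeriesSummable b s ∧ exp (LSeries b s) = F s

open Pool.Agent.Y532.SC Pool.Agent.Q286.SA in
/-- the functional equation of `Comp` -/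
theorem fe_of_comp {lam nu Q ε : ℝ} {A g : ℕ → ℝ} {F : ℂ → ℂ} (h : Comp lam nu Q ε A g F) (hlam : 0 < lam)
    (hQ : 0 < Q) : FE F Q ![lam] ![(nu : ℂ)] (ε : ℂ) := by
  refine ⟨hQ, ?_, ?_, ?_⟩
  · intro j
    fin_cases j
    simpa using hlam
  · rcases h.eps with h | h <;> rw [h] <;> simp
  · intro s _ _ h1 h2
    have key := h.fe s (fun n => h1 0 n) (fun n => h2 0 n)
    have hPhi : ∀ w : ℂ, Phi F Q ![lam] ![(nu : ℂ)] w = F w * (Q : ℂ) ^ w * Gamma ((lam : ℂ) * w + nu) := by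
      intro w
      unfold Phi
      rw [Fin.prod_univ_one]
      simp only [Matrix.cons_val_zero]
      ring
    rw [hPhi, hPhi]
    exact key

open Pool.Agent.Y532.SC Pool.Agent.Q286.SA in
/-- the coefficients -/
noncomputable def coef (α g : ℕ → ℝ) : ℕ → ℂ := LSeries.convolution (fun n => (cm α n : ℂ)) (co g)

open Pool.Agent.Y532.SC Pool.Agent.Q286.SA in
theorem coef_real (α g : ℕ → ℝ) (n : ℕ) : (coef α g n).im = 0 := by
  unfold coef
  rw [LSeries.convolution_def]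
  have : ∀ x ∈ n.divisorsAntidiagonal, (cm α x.1 : ℂ) * co g x.2 =
      ((cm α x.1 * Pool.Agent.H902R3.I469.fr 1 (cf g) x.2 : ℝ) : ℂ) := by
    intro x _
    unfold co Pool.Agent.H902R3.I469.ff
    push_cast
    rfl
  simp only []
  rw [sum_congr rfl this, ← ofReal_sum, ofReal_im]

open Pool.Agent.Y532.SC Pool.Agent.Q286.SA in
theorem axioms_of_comp {lam nu Q ε θ : ℝ} {α g : ℕ → ℝ} {F : ℂ → ℂ} (h : Comp lam nu Q ε (fun n => cm α n) g F)
    (hlam : 0 < lam) (hQ : 0 < Q) (hθ0 : 0 ≤ θ) (hθ : θ < 1 / 2) (hα : ∀ p : ℕ, p.Prime → |α p| ≤ (p : ℝ) ^ θ)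
    (hs1 : ∀ s : ℂ, 1 < s.re → LSeriesSummable (fun n => (cm α n : ℂ)) s) : Axioms (coef α g) F where
  abs_conv := fun s hs => (hs1 s hs).convolution (co_summable h.bdd hs)
  eq_series := fun s hs => by
    unfold coef
    rw [LSeries_convolution' (hs1 s hs) (co_summable h.bdd hs)]
    exact h.series s hs
  entire := h.diff
  finite_order := by
    obtain ⟨C, hC⟩ := h.growth
    exact ⟨3, C, by norm_num, hC⟩
  functional := ⟨Q, 1, ![lam], ![(nu : ℂ)], ε, fe_of_comp h hlam hQ⟩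
  real := coef_real α g
  a_one := by
    unfold coef
    rw [LSeries.convolution_def]
    simp [co_one]
  euler := by
    have hb := cf_bound h.bdd
    refine ⟨bC α + Pool.Agent.H902R3.PZ.bH 1 (cf g), θ, hθ, ?_, ⟨2, fun n hn => ?_⟩, fun s hs => ⟨?_, ?_⟩⟩
    · intro n hn
      rw [Pi.add_apply, bC_zero hn]
      unfold Pool.Agent.H902R3.PZ.bH
      rw [if_neg hn, add_zero]
    · have hn1 : (1 : ℝ) ≤ n := by exact_mod_cast hn
      have h1 : ‖Pool.Agent.H902R3.PZ.bH 1 (cf g) n‖ ≤ (n : ℝ) ^ θ :=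
        (Pool.Agent.H902R3.PZ.norm_bH_le hb n).trans (Real.one_le_rpow hn1 hθ0)
      have h2 : ‖bC α n‖ ≤ (n : ℝ) ^ θ := by
        by_cases hpp : IsPrimePow n
        · obtain ⟨p, k, hp, hk, rfl⟩ := (isPrimePow_nat_iff n).1 hpp
          refine (norm_bC_le _).trans ?_
          rw [map_pow, cm_prime α hp, abs_pow]
          have hp0 : (0 : ℝ) ≤ p := Nat.cast_nonneg p
          calc |α p| ^ k ≤ ((p : ℝ) ^ θ) ^ k := pow_le_pow_left₀ (abs_nonneg _) (hα p hp) k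
            _ = ((p ^ k : ℕ) : ℝ) ^ θ := by
                push_cast
                rw [← Real.rpow_natCast, ← Real.rpow_natCast, ← Real.rpow_mul hp0, ← Real.rpow_mul hp0, mul_comm]
        · rw [bC_zero hpp, norm_zero]
          positivity
      rw [Pi.add_apply]
      calc _ ≤ ‖bC α n‖ + ‖Pool.Agent.H902R3.PZ.bH 1 (cf g) n‖ := norm_add_le _ _
        _ ≤ 2 * (n : ℝ) ^ θ := by linarith
    · exact (bC_summable (hs1 s hs)).add (Pool.Agent.H902R3.PZ.summable_bH hb hs)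
    · rw [LSeries_add (bC_summable (hs1 s hs)) (Pool.Agent.H902R3.PZ.summable_bH hb hs), exp_add, exp_bC (hs1 s hs),
        Pool.Agent.H902R3.PZ.exp_bH hb hs, h.series s hs]
      rfl

open Pool.Agent.Y532.SC Pool.Agent.Q286.SA in
theorem prod_of_comp {lam nu Q ε : ℝ} {α g : ℕ → ℝ} {F : ℂ → ℂ} (h : Comp lam nu Q ε (fun n => cm α n) g F)
    (hs1 : ∀ s : ℂ, 1 < s.re → LSeriesSummable (fun n => (cm α n : ℂ)) s) (s : ℂ) (hs : 1 < s.re) :
    HasProd (fun p : Nat.Primes => (1 + (g p : ℂ) * ((p : ℕ) : ℂ) ^ (-s)) *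
      (1 - (α p : ℂ) * ((p : ℕ) : ℂ) ^ (-s))⁻¹) (F s) := by
  have h1 := (co_hasProd h.bdd hs).mul (cm_hasProd (hs1 s hs))
  rw [h.series s hs, mul_comm]
  exact h1

open Pool.Agent.Y532.SC Pool.Agent.Q286.SA in
/-- the value at a power of a prime `p` with `g p = 0` -/
theorem coef_pow {α g : ℕ → ℝ} {p : ℕ} (hp : p.Prime) (hg : g p = 0) (k : ℕ) :
    coef α g (p ^ k) = ((α p ^ k : ℝ) : ℂ) := by
  unfold coef
  rw [LSeries.convolution_def]
  simp only []
  have hmem : (p ^ k, 1) ∈ (p ^ k).divisorsAntidiagonal := by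
    rw [Nat.mem_divisorsAntidiagonal]
    exact ⟨mul_one _, pow_ne_zero _ hp.ne_zero⟩
  rw [sum_eq_single_of_mem _ hmem]
  · rw [co_one, mul_one, map_pow, cm_prime α hp]
  · rintro ⟨d, e⟩ hx hne
    obtain ⟨hde, -⟩ := Nat.mem_divisorsAntidiagonal.1 hx
    simp only at hde
    have he1 : e ≠ 1 := by
      rintro rfl
      rw [mul_one] at hde
      exact hne (by rw [hde])
    have hep : e ∣ p ^ k := ⟨d, by rw [← hde, mul_comm]⟩
    obtain ⟨j, hj, hej⟩ := (Nat.dvd_prime_pow hp).1 hep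
    have hj0 : j ≠ 0 := by
      rintro rfl
      exact he1 (by rw [hej, pow_zero])
    have h0 : co g e = 0 := by
      rw [Pool.Agent.Q286.SP.co_apply]
      split_ifs
      · have hpe : p ∈ e.primeFactors := by
          rw [hej, Nat.primeFactors_prime_pow hj0 hp]
          exact mem_singleton_self p
        rw [prod_eq_zero hpe hg]
        simp
      · simp
    rw [h0, mul_zero]

/-- **Non-tempered Euler products.** -/
theorem result :
    -- (1) prescribed local factors `(1 - α_p p^{-s})^{-1}`, `|α_p| ≤ p^θ`, at the primes `p ≤ Q`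
    (∀ θ r κ : ℝ, 0 ≤ θ → θ < 1 / 2 → 0 ≤ r → r < 1 / 2 → κ < 1 - r → ∃ m₀ : ℕ, ∀ m : ℕ, m₀ ≤ m →
      ∃ Q₀ δ : ℝ, 0 < Q₀ ∧ 0 < δ ∧ ∀ Q : ℝ, Q₀ ≤ Q → ∀ α : ℕ → ℝ, (∀ p : ℕ, p.Prime → |α p| ≤ (p : ℝ) ^ θ) →
        (∀ N : ℕ, (Real.log Q) ^ 2 * ∑ p ∈ N.primesBelow, |α p| * (p : ℝ) ^ (-κ) ≤ δ) →
        ∃ (a : ℕ → ℂ) (g : ℕ → ℝ) (F : ℂ → ℂ), Axioms a F ∧
          FE F Q ![2 * (m + 1) / (1 - 2 * r)] ![((-(2 * (m + 1) / (1 - 2 * r) * r) : ℝ) : ℂ)]
            (((-1 : ℝ) ^ (m + 1) : ℝ) : ℂ) ∧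
          (∀ p : ℕ, p.Prime → |g p| ≤ 1) ∧ (∀ p : ℕ, (p : ℝ) ≤ Q → g p = 0) ∧
          ∀ s : ℂ, 1 < s.re → HasProd (fun p : Nat.Primes => (1 + (g p : ℂ) * ((p : ℕ) : ℂ) ^ (-s)) *
            (1 - (α p : ℂ) * ((p : ℕ) : ℂ) ^ (-s))⁻¹) (F s)) ∧
    -- (2) one prime `p` with parameter `p^θ`, all the other local factors tempered
    (∀ θ r : ℝ, 0 ≤ θ → θ < 1 / 2 → 0 ≤ r → r < 1 / 2 → ∃ m₀ : ℕ, ∀ m : ℕ, m₀ ≤ m →
      ∃ Q₀ C : ℝ, 0 < Q₀ ∧ 0 < C ∧ ∀ Q : ℝ, Q₀ ≤ Q → ∀ p : ℕ, p.Prime → (Real.log Q) ^ C ≤ p → (p : ℝ) ≤ Q →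
        ∃ (a : ℕ → ℂ) (g : ℕ → ℝ) (F : ℂ → ℂ), Axioms a F ∧
          FE F Q ![2 * (m + 1) / (1 - 2 * r)] ![((-(2 * (m + 1) / (1 - 2 * r) * r) : ℝ) : ℂ)]
            (((-1 : ℝ) ^ (m + 1) : ℝ) : ℂ) ∧
          (∀ q : ℕ, q.Prime → |g q| ≤ 1) ∧ (∀ q : ℕ, (q : ℝ) ≤ Q → g q = 0) ∧
          (∀ s : ℂ, 1 < s.re → HasProd (fun q : Nat.Primes => (1 + (g q : ℂ) * ((q : ℕ) : ℂ) ^ (-s)) *
            (1 - ((if (q : ℕ) = p then (p : ℝ) ^ θ else 0 : ℝ) : ℂ) * ((q : ℕ) : ℂ) ^ (-s))⁻¹) (F s)) ∧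
          ∀ k : ℕ, a (p ^ k) = (((p : ℝ) ^ (θ * k) : ℝ) : ℂ)) ∧
    -- (3) infinitely many primes with parameter `p^θ`
    (∀ θ r : ℝ, 0 ≤ θ → θ < 1 / 2 → 0 ≤ r → r < 1 / 2 → ∃ m₀ : ℕ, ∀ m : ℕ, m₀ ≤ m →
      ∃ Q₀ : ℝ, 0 < Q₀ ∧ ∀ Q : ℝ, Q₀ ≤ Q → ∃ P : Set ℕ, P.Infinite ∧ (∀ p ∈ P, p.Prime) ∧
        ∃ (a : ℕ → ℂ) (g : ℕ → ℝ) (F : ℂ → ℂ), Axioms a F ∧
          FE F Q ![2 * (m + 1) / (1 - 2 * r)] ![((-(2 * (m + 1) / (1 - 2 * r) * r) : ℝ) : ℂ)]
            (((-1 : ℝ) ^ (m + 1) : ℝ) : ℂ) ∧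
          (∀ q : ℕ, q.Prime → |g q| ≤ 1) ∧
          ∀ s : ℂ, 1 < s.re → HasProd (fun q : Nat.Primes => (1 + (g q : ℂ) * ((q : ℕ) : ℂ) ^ (-s)) *
            (1 - ((Set.indicator P (fun n : ℕ => (n : ℝ) ^ θ) (q : ℕ) : ℝ) : ℂ) * ((q : ℕ) : ℂ) ^ (-s))⁻¹) (F s)) := by
  classical
  have B : ∀ θ r κ : ℝ, 0 ≤ θ → θ < 1 / 2 → 0 ≤ r → r < 1 / 2 → κ < 1 - r → ∃ m₀ : ℕ, ∀ m : ℕ, m₀ ≤ m →
      ∃ Q₀ δ : ℝ, 0 < Q₀ ∧ 0 < δ ∧ ∀ Q : ℝ, Q₀ ≤ Q → ∀ α : ℕ → ℝ, (∀ p : ℕ, p.Prime → |α p| ≤ (p : ℝ) ^ θ) →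
        (∀ N : ℕ, (Real.log Q) ^ 2 * ∑ p ∈ N.primesBelow, |α p| * (p : ℝ) ^ (-κ) ≤ δ) →
        ∃ (g : ℕ → ℝ) (F : ℂ → ℂ), Axioms (coef α g) F ∧
          FE F Q ![2 * (m + 1) / (1 - 2 * r)] ![((-(2 * (m + 1) / (1 - 2 * r) * r) : ℝ) : ℂ)]
            (((-1 : ℝ) ^ (m + 1) : ℝ) : ℂ) ∧
          (∀ p : ℕ, p.Prime → |g p| ≤ 1) ∧ (∀ p : ℕ, (p : ℝ) ≤ Q → g p = 0) ∧
          ∀ s : ℂ, 1 < s.re → HasProd (fun p : Nat.Primes => (1 + (g p : ℂ) * ((p : ℕ) : ℂ) ^ (-s)) *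
            (1 - (α p : ℂ) * ((p : ℕ) : ℂ) ^ (-s))⁻¹) (F s) := by
    intro θ r κ hθ0 hθ1 hr0 hr1 hκ
    obtain ⟨m₁, -, H⟩ := Pool.Agent.Q286.SA.completion
    obtain ⟨m₂, hm₂⟩ := exists_nat_gt ((1 - 2 * r) / (1 - r - κ))
    refine ⟨max m₁ m₂, fun m hm => ?_⟩
    have hmR : (0:ℝ) ≤ m := Nat.cast_nonneg m
    have h1r : 0 < 1 - 2 * r := by linarith
    have h1κ : 0 < 1 - r - κ := by linarith
    obtain ⟨lam, hlam⟩ : ∃ lam : ℝ, lam = 2 * (m + 1) / (1 - 2 * r) := ⟨_, rfl⟩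
    have hlm : 2 * m + 1 < lam := by
      rw [hlam, lt_div_iff₀ h1r]
      nlinarith
    have hl : 0 < lam := by linarith
    obtain ⟨σ, hσ⟩ : ∃ σ : ℝ, σ = 1 / 2 + (m - 1) / lam := ⟨_, rfl⟩
    have hσκ : κ ≤ σ := by
      have e1 : (m - 1) / lam = (1 / 2 - r) - (1 - 2 * r) / (m + 1) := by
        rw [hlam]
        field_simp
        ring
      have e2 : (1 - 2 * r) / (m + 1) ≤ 1 - r - κ := by
        rw [div_le_iff₀ (by linarith)]
        have h2 : (m₂ : ℝ) ≤ m := by exact_mod_cast (le_max_right _ _).trans hm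
        rw [div_lt_iff₀ h1κ] at hm₂
        nlinarith
      rw [hσ, e1]
      linarith
    have hσ1 : σ ≤ 1 := by
      rw [hσ]
      have : (m - 1) / lam ≤ 1 / 2 := by
        rw [div_le_iff₀ hl]
        linarith
      linarith
    obtain ⟨Q₀, ε₀, hQ₀, hε₀, K⟩ := H m ((le_max_left _ _).trans hm) lam hlm
    rw [← hσ] at K
    have hsq : 0 < Real.sqrt ε₀ := Real.sqrt_pos.2 hε₀
    refine ⟨max Q₀ (Real.exp 1), min (1 / 2) (Real.sqrt ε₀ / 4), lt_max_of_lt_right (Real.exp_pos _),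
      lt_min (by norm_num) (by positivity), fun Q hQ α hα hm => ?_⟩
    have hQe : Real.exp 1 ≤ Q := (le_max_right _ _).trans hQ
    have hQ0 : 0 < Q := (Real.exp_pos _).trans_le hQe
    have hL : 1 ≤ Real.log Q := by
      rw [Real.le_log_iff_exp_le hQ0]
      exact hQe
    have hL0 : 0 < Real.log Q := by linarith
    obtain ⟨S, hS⟩ : ∃ S : ℝ, S = min (1 / 2) (Real.sqrt ε₀ / 4) / (Real.log Q) ^ 2 := ⟨_, rfl⟩
    have hS0 : 0 ≤ S := by rw [hS]; positivity
    have hS2 : S ≤ 1 / 2 := by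
      rw [hS, div_le_iff₀ (by positivity)]
      have h2 : 1 ≤ (Real.log Q) ^ 2 := one_le_pow₀ hL
      have h3 := min_le_left (1 / 2) (Real.sqrt ε₀ / 4)
      nlinarith
    have hx0 : ∀ n, 0 ≤ Pool.Agent.Q286.SA.hm α σ n := by
      intro n
      rw [Pool.Agent.Q286.SA.hm_apply]
      positivity
    obtain ⟨hs, ht0, ht⟩ := Pool.Agent.Q286.SA.mass_one hx0 hS0 hS2 (fun N => by
      rw [hS, le_div_iff₀ (by positivity), mul_comm]
      refine le_trans (mul_le_mul_of_nonneg_left ?_ (by positivity)) (hm N)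
      apply sum_le_sum
      intro p hp
      have hpp := Nat.prime_of_mem_primesBelow hp
      rw [Pool.Agent.Q286.SA.hm_apply, Pool.Agent.Q286.SA.cm_prime α hpp]
      apply mul_le_mul_of_nonneg_left _ (abs_nonneg _)
      apply Real.rpow_le_rpow_of_exponent_le
      · exact_mod_cast hpp.one_le
      · linarith)
    have hs' : Summable fun n : ℕ => |Pool.Agent.Q286.SA.cm α n| * (n : ℝ) ^ (-σ) := hs
    obtain ⟨g, F, hF, hg0, -⟩ := K Q ((le_max_left _ _).trans hQ) (fun n => Pool.Agent.Q286.SA.cm α n)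
      (map_one _) hs' (by
        have h4 : (Real.log Q) ^ 2 * (4 * S) ≤ Real.sqrt ε₀ := by
          rw [hS]
          have h5 : (Real.log Q) ^ 2 * (4 * (min (1 / 2) (Real.sqrt ε₀ / 4) / (Real.log Q) ^ 2)) =
              4 * min (1 / 2) (Real.sqrt ε₀ / 4) := by
            field_simp
          rw [h5]
          linarith [min_le_right (1 / 2) (Real.sqrt ε₀ / 4)]
        have ht' : ∑' n : ℕ, (if n ≤ 1 then 0 else |Pool.Agent.Q286.SA.cm α n| * (n : ℝ) ^ (-σ)) ≤ 4 * S := ht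
        have ht0' : 0 ≤ ∑' n : ℕ, (if n ≤ 1 then 0 else |Pool.Agent.Q286.SA.cm α n| * (n : ℝ) ^ (-σ)) := ht0
        calc _ = ((Real.log Q) ^ 2 * ∑' n : ℕ, (if n ≤ 1 then 0 else
              |Pool.Agent.Q286.SA.cm α n| * (n : ℝ) ^ (-σ))) ^ 2 := by ring
          _ ≤ (Real.sqrt ε₀) ^ 2 := by
              apply pow_le_pow_left₀ (by positivity)
              exact (mul_le_mul_of_nonneg_left ht' (by positivity)).trans h4
          _ = ε₀ := Real.sq_sqrt hε₀.le)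
    have hs1 : ∀ s : ℂ, 1 < s.re → LSeriesSummable (fun n => (Pool.Agent.Q286.SA.cm α n : ℂ)) s :=
      fun s hs => Pool.Agent.Q286.SA.A_summable hs' (by linarith)
    have hnu : (m + 1 - lam / 2 : ℝ) = -(lam * r) := by
      have h3 : lam * (1 - 2 * r) = 2 * (m + 1) := by
        rw [hlam]
        field_simp
      linarith
    rw [hnu] at hF
    rw [← hlam]
    exact ⟨g, F, axioms_of_comp hF hl hQ0 hθ0 hθ1 hα hs1, fe_of_comp hF hl hQ0, hF.bdd, hg0, prod_of_comp hF hs1⟩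
  refine ⟨?_, ?_, ?_⟩
  · intro θ r κ hθ0 hθ1 hr0 hr1 hκ
    obtain ⟨m₀, H⟩ := B θ r κ hθ0 hθ1 hr0 hr1 hκ
    refine ⟨m₀, fun m hm => ?_⟩
    obtain ⟨Q₀, δ, hQ₀, hδ, K⟩ := H m hm
    refine ⟨Q₀, δ, hQ₀, hδ, fun Q hQ α hα hs => ?_⟩
    obtain ⟨g, F, h1, h2, h3, h4, h5⟩ := K Q hQ α hα hs
    exact ⟨_, g, F, h1, h2, h3, h4, h5⟩
  · intro θ r hθ0 hθ1 hr0 hr1
    obtain ⟨κ, hκ⟩ : ∃ κ : ℝ, κ = (θ + (1 - r)) / 2 := ⟨_, rfl⟩
    have hκ1 : κ < 1 - r := by rw [hκ]; linarith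
    have hκθ : 0 < κ - θ := by rw [hκ]; linarith
    obtain ⟨m₀, H⟩ := B θ r κ hθ0 hθ1 hr0 hr1 hκ1
    refine ⟨m₀, fun m hm => ?_⟩
    obtain ⟨Q₀, δ, hQ₀, hδ, K⟩ := H m hm
    refine ⟨max Q₀ (Real.exp (1 + 1 / δ)), 3 / (κ - θ), lt_max_of_lt_left hQ₀, by positivity,
      fun Q hQ p hp hpl hpQ => ?_⟩
    have hQe : Real.exp (1 + 1 / δ) ≤ Q := (le_max_right _ _).trans hQ
    have hQ0 : 0 < Q := (Real.exp_pos _).trans_le hQe
    have hL : 1 + 1 / δ ≤ Real.log Q := by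
      rw [Real.le_log_iff_exp_le hQ0]
      exact hQe
    have hδ1 : 0 < 1 / δ := by positivity
    have hL0 : 0 < Real.log Q := by linarith
    have hLδ : (Real.log Q)⁻¹ ≤ δ := by
      rw [inv_le_comm₀ hL0 hδ, inv_eq_one_div]
      linarith
    have hp0 : (0 : ℝ) < p := by exact_mod_cast hp.pos
    obtain ⟨α, hα⟩ : ∃ α : ℕ → ℝ, α = fun q => if q = p then (p : ℝ) ^ θ else 0 := ⟨_, rfl⟩
    have hαp : α p = (p : ℝ) ^ θ := by rw [hα]; simp
    obtain ⟨g, F, h1, h2, h3, h4, h5⟩ := K Q ((le_max_left _ _).trans hQ) α (fun q hq => by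
      rw [hα]
      simp only
      split_ifs with h
      · subst h
        rw [abs_of_nonneg (by positivity)]
      · rw [abs_zero]; positivity) (fun N => by
      have h6 : ∑ q ∈ N.primesBelow, |α q| * (q : ℝ) ^ (-κ) ≤ (p : ℝ) ^ (θ - κ) := by
        calc ∑ q ∈ N.primesBelow, |α q| * (q : ℝ) ^ (-κ) = ∑ q ∈ N.primesBelow, (if q = p then (p : ℝ) ^ (θ - κ) else 0) := by
              apply sum_congr rfl
              intro q _
              rw [hα]
              simp only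
              split_ifs with h
              · subst h
                rw [abs_of_nonneg (by positivity), ← Real.rpow_add hp0]
                rfl
              · simp
          _ ≤ (p : ℝ) ^ (θ - κ) := by
              rw [sum_ite_eq']
              split_ifs
              · exact le_rfl
              · positivity
      have h7 : (p : ℝ) ^ (θ - κ) ≤ ((Real.log Q) ^ (3 / (κ - θ))) ^ (θ - κ) :=
        Real.rpow_le_rpow_of_nonpos (Real.rpow_pos_of_pos hL0 _) hpl (by linarith)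
      have h8 : ((Real.log Q) ^ (3 / (κ - θ))) ^ (θ - κ) = (Real.log Q) ^ (-(3 : ℝ)) := by
        rw [← Real.rpow_mul hL0.le]
        congr 1
        field_simp
        ring
      have h9 : (Real.log Q) ^ 2 * (Real.log Q) ^ (-(3 : ℝ)) = (Real.log Q)⁻¹ := by
        rw [← Real.rpow_natCast, ← Real.rpow_add hL0, ← Real.rpow_neg_one]
        norm_num
      calc (Real.log Q) ^ 2 * ∑ q ∈ N.primesBelow, |α q| * (q : ℝ) ^ (-κ)
          ≤ (Real.log Q) ^ 2 * (Real.log Q) ^ (-(3 : ℝ)) := by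
            apply mul_le_mul_of_nonneg_left _ (by positivity)
            rw [← h8]
            exact h6.trans h7
        _ ≤ δ := by rw [h9]; exact hLδ)
    refine ⟨_, g, F, h1, h2, h3, h4, fun s hs => ?_, fun k => ?_⟩
    · have h6 := h5 s hs
      rw [hα] at h6
      exact h6
    · rw [coef_pow hp (h4 p hpQ), hαp, ← Real.rpow_natCast, ← Real.rpow_mul hp0.le]
  · intro θ r hθ0 hθ1 hr0 hr1
    obtain ⟨κ, hκ⟩ : ∃ κ : ℝ, κ = (θ + (1 - r)) / 2 := ⟨_, rfl⟩
    have hκ1 : κ < 1 - r := by rw [hκ]; linarith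
    have hκθ : 0 < κ - θ := by rw [hκ]; linarith
    obtain ⟨m₀, H⟩ := B θ r κ hθ0 hθ1 hr0 hr1 hκ1
    refine ⟨m₀, fun m hm => ?_⟩
    obtain ⟨Q₀, δ, hQ₀, hδ, K⟩ := H m hm
    refine ⟨max Q₀ (Real.exp 1), lt_max_of_lt_left hQ₀, fun Q hQ => ?_⟩
    have hQe : Real.exp 1 ≤ Q := (le_max_right _ _).trans hQ
    have hQ0 : 0 < Q := (Real.exp_pos _).trans_le hQe
    have hL : 1 ≤ Real.log Q := by
      rw [Real.le_log_iff_exp_le hQ0]
      exact hQe
    have hL0 : 0 < Real.log Q := by linarith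
    -- a sparse sequence of primes
    obtain ⟨η, hη⟩ : ∃ η : ℝ, η = δ / (Real.log Q) ^ 2 := ⟨_, rfl⟩
    have hη0 : 0 < η := by rw [hη]; positivity
    have hex : ∀ n : ℕ, ∃ p : ℕ, n < p ∧ p.Prime ∧ (p : ℝ) ^ (θ - κ) ≤ η * (1 / 2) ^ (n + 1) := by
      intro n
      have h1 : Filter.Tendsto (fun x : ℝ => x ^ (-(κ - θ))) Filter.atTop (nhds 0) := tendsto_rpow_neg_atTop hκθ
      have h2 : ∀ᶠ x : ℝ in Filter.atTop, x ^ (-(κ - θ)) ≤ η * (1 / 2) ^ (n + 1) :=
        h1.eventually_le_const (by positivity)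
      obtain ⟨x₀, hx₀⟩ := Filter.eventually_atTop.1 h2
      obtain ⟨p, hp1, hp2⟩ := Nat.exists_infinite_primes (max (n + 1) ⌈x₀⌉₊)
      refine ⟨p, (le_max_left _ _).trans hp1, hp2, ?_⟩
      have h3 : x₀ ≤ p := (Nat.le_ceil x₀).trans (by exact_mod_cast (le_max_right _ _).trans hp1)
      have h4 := hx₀ p h3
      have e : -(κ - θ) = θ - κ := by ring
      rw [e] at h4
      exact h4
    choose nx hnx1 hnx2 hnx3 using hex
    -- `q (n + 1) = nx (q n)`
    obtain ⟨q, hq⟩ : ∃ q : ℕ → ℕ, q = fun n => Nat.rec (nx 0) (fun _ y => nx y) n := ⟨_, rfl⟩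
    have hq1 : ∀ n, q (n + 1) = nx (q n) := fun n => by
      subst hq
      rfl
    have hq0 : q 0 = nx 0 := by
      subst hq
      rfl
    have hmono : StrictMono q := by
      apply strictMono_nat_of_lt_succ
      intro n
      rw [hq1]
      exact hnx1 _
    have hqn : ∀ n, n ≤ q n := fun n => hmono.id_le n
    have hqp : ∀ n, (q n).Prime ∧ ((q n : ℕ) : ℝ) ^ (θ - κ) ≤ η * (1 / 2) ^ (n + 1) := by
      intro n
      rcases n with _ | n
      · rw [hq0]
        exact ⟨hnx2 _, hnx3 0⟩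
      · rw [hq1]
        refine ⟨hnx2 _, (hnx3 _).trans ?_⟩
        have h1 : (1 / 2 : ℝ) ^ (q n + 1) ≤ (1 / 2) ^ (n + 1 + 1) ∨ q n = n := by
          rcases (hqn n).lt_or_eq with h | h
          · left
            exact pow_le_pow_of_le_one (by norm_num) (by norm_num) (by omega)
          · right
            exact h.symm
        rcases h1 with h1 | h1
        · exact mul_le_mul_of_nonneg_left h1 hη0.le
        · exfalso
          -- `q n > n` because `q 0 ≥ 2`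
          have h2 : ∀ k, k < q k := by
            intro k
            induction k with
            | zero =>
              rw [hq0]
              exact (hnx2 0).pos
            | succ k ih =>
              rw [hq1]
              have := hnx1 (q k)
              omega
          have := h2 n
          omega
    refine ⟨Set.range q, Set.infinite_range_of_injective hmono.injective, ?_, ?_⟩
    · rintro p ⟨n, rfl⟩
      exact (hqp n).1
    obtain ⟨α, hα⟩ : ∃ α : ℕ → ℝ, α = Set.indicator (Set.range q) (fun n : ℕ => (n : ℝ) ^ θ) := ⟨_, rfl⟩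
    have hαq : ∀ n, α (q n) = ((q n : ℕ) : ℝ) ^ θ := fun n => by
      rw [hα, Set.indicator_of_mem (Set.mem_range_self n)]
    obtain ⟨g, F, h1, h2, h3, h4, h5⟩ := K Q ((le_max_left _ _).trans hQ) α (fun p hp => by
      rw [hα]
      by_cases h : p ∈ Set.range q
      · rw [Set.indicator_of_mem h, abs_of_nonneg (by positivity)]
      · rw [Set.indicator_of_notMem h, abs_zero]
        positivity) (fun N => by
      have h6 : ∑ p ∈ N.primesBelow, |α p| * (p : ℝ) ^ (-κ) ≤ ∑ n ∈ range N, ((q n : ℕ) : ℝ) ^ (θ - κ) := by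
        have h7 : ∑ n ∈ range N, ((q n : ℕ) : ℝ) ^ (θ - κ) =
            ∑ p ∈ (range N).image q, (p : ℝ) ^ (θ - κ) := by
          rw [sum_image]
          intro a _ b _ hab
          exact hmono.injective hab
        rw [h7]
        calc ∑ p ∈ N.primesBelow, |α p| * (p : ℝ) ^ (-κ)
            = ∑ p ∈ N.primesBelow.filter (fun p => p ∈ Set.range q), |α p| * (p : ℝ) ^ (-κ) := by
              rw [sum_filter]
              apply sum_congr rfl
              intro p _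
              split_ifs with h
              · rfl
              · rw [hα, Set.indicator_of_notMem h]
                simp
          _ = ∑ p ∈ N.primesBelow.filter (fun p => p ∈ Set.range q), (p : ℝ) ^ (θ - κ) := by
              apply sum_congr rfl
              intro p hp
              obtain ⟨hp1, n, rfl⟩ := mem_filter.1 hp
              have hp0 : (0 : ℝ) < q n := by exact_mod_cast (hqp n).1.pos
              rw [hαq, abs_of_nonneg (by positivity), ← Real.rpow_add hp0]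
              rfl
          _ ≤ ∑ p ∈ (range N).image q, (p : ℝ) ^ (θ - κ) := by
              apply sum_le_sum_of_subset_of_nonneg
              · intro p hp
                obtain ⟨hp1, n, rfl⟩ := mem_filter.1 hp
                rw [mem_image]
                refine ⟨n, ?_, rfl⟩
                rw [mem_range]
                exact (hqn n).trans_lt (Nat.lt_of_mem_primesBelow hp1)
              · intro p _ _
                positivity
      have h8 : ∑ n ∈ range N, ((q n : ℕ) : ℝ) ^ (θ - κ) ≤ η := by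
        calc ∑ n ∈ range N, ((q n : ℕ) : ℝ) ^ (θ - κ) ≤ ∑ n ∈ range N, η * (1 / 2) ^ (n + 1) :=
              sum_le_sum fun n _ => (hqp n).2
          _ = η * (1 - (1 / 2) ^ N) := by
              rw [← mul_sum]
              congr 1
              clear h6
              induction N with
              | zero => simp
              | succ N ih =>
                rw [sum_range_succ, ih, pow_succ]
                ring
          _ ≤ η := by
              have : (0 : ℝ) ≤ (1 / 2) ^ N := by positivity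
              nlinarith
      calc (Real.log Q) ^ 2 * ∑ p ∈ N.primesBelow, |α p| * (p : ℝ) ^ (-κ) ≤ (Real.log Q) ^ 2 * η :=
            mul_le_mul_of_nonneg_left (h6.trans h8) (by positivity)
        _ = δ := by rw [hη]; field_simp
        _ ≤ δ := le_rfl)
    refine ⟨_, g, F, h1, h2, h3, fun s hs => ?_⟩
    have h6 := h5 s hs
    rw [hα] at h6
    exact h6

end Pool.Agent.Results.MP_8410ab_nt.NonTemperedEulerProducts
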