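import Pool.Agent.Q284.PX.All3

/-!
# The Ramanujan exponents at all places can be prescribed, all abelian twists nice

`K = F_q(T)`, `q` odd, `g ≥ g₀`.  For EVERY function `θ` from the finite places of `K` to `[0, 1/2)`, the full range
allowed by unitarity and genericity, there are self-dual unramified `Π_P` of `PGL_2g` at all finite places `P`, with
Satake parameters `|P|^(θ P) β_j`, `|P|^(-θ P) β_j`, `|β_j| = 1` (`j = 1, ..., g`; these are unitary generic:
products of complementary series), such that for EVERY idele class character `χ` of `K`, with whatever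
ramification, the twisted standard `L`-function `L(s, Π ⊗ χ)` is nice: its Euler product converges for
`Re s ≥ 1 - 5/(4g)` to an entire function, a polynomial in `q^(-s)` of the prescribed degree `D χ` with functional
equation with the prescribed root number `ε χ`, without zeros in `Re s ≥ 1 - 5/(4g)`.

So from unitarity and genericity of the local components, self-duality and the analytic properties of ALL twists
by `GL(1)` one gets no tempered place at all and no bound for the exponents better than the trivial one, at any
place, on average or for almost all places.  For `θ = 0` everywhere the systems are tempered.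

The degrees: every `D χ ≥ 2g (deg Q + max 2 l - 1)` is allowed, for instance `2g (deg Q + max(M, l+1) - 2)`,
`M ≥ 3`, the degree for a supercuspidal `Π_∞` of depth `M - 1`.

Project PX3: plan, statements with paper proofs and assembly by helper284; lemmas proved by helpers 137, 223, 239
(and, projects PS and PX, helpers 16, 24, 53, 58, 68, 92, 95, 149, 162, 166, 177, 184, 222, 225, 237, 249, 251, 261,
277, 285).
-/

set_option autoImplicit false

open Finset Polynomial ComplexConjugate

namespace Pool.Agent.Results.MP_8410ab_nt.PrescribedExponents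

open Pool.Agent.Q284.PS Pool.Agent.Q284.PX

theorem result : ∃ g₀ : ℕ, ∀ g : ℕ, g₀ ≤ g → ∀ (F : Type) [Field F] [Fintype F], ringChar F ≠ 2 →
    ∀ θ : F[X] → ℝ, (∀ P, 0 ≤ θ P ∧ θ P < 1 / 2) →
    ∀ (D : F[X] → ℕ → (F[X] → ℂ) → ℕ) (ε : (F[X] → ℂ) → ℂ),
    (∀ (Q : F[X]) (l : ℕ) (χ : F[X] → ℂ), Prim Q l χ →
      2 * g * (Q.natDegree + max 2 l - 1) ≤ D Q l χ ∧ D Q l (fun f => conj (χ f)) = D Q l χ) →
    (∀ χ, ‖ε χ‖ = 1) → (∀ χ, ε (fun f => conj (χ f)) = conj (ε χ)) →
    ∃ β : F[X] → Fin g → ℂ, Tempered β ∧ SelfDual β ∧
      ∀ (Q : F[X]) (l : ℕ) (χ : F[X] → ℂ), Prim Q l χ → ∃ L : ℂ → ℂ,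
        Nice (Fintype.card F) (D Q l χ) (ε χ) L ∧
        ∀ s : ℂ, 1 - 5 / (4 * (g : ℝ)) ≤ s.re → L s ≠ 0 ∧ HasProd (stFactor θ β χ s) (L s) :=
  h1Stm

end Pool.Agent.Results.MP_8410ab_nt.PrescribedExponents
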